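import Pool.Agent.PolyTime.Clock

/-! More polynomial time functions: generic equality, take, drop, getD, headD, sum, count, zip. -/

set_option autoImplicit false
set_option linter.unusedSectionVars false

namespace Pool.Agent.PolyTime

open Turing Function

/-! ### equality -/

theorem D.enc_append_inj : ∀ {a b : D} {u v : List Bool}, a.enc ++ u = b.enc ++ v →
    a = b ∧ u = v
  | .nil, .nil, u, v, h => by simpa [D.enc] using h
  | .nil, .cons _ _, u, v, h => by simp [D.enc] at h
  | .cons _ _, .nil, u, v, h => by simp [D.enc] at h
  | .cons a1 a2, .cons b1 b2, u, v, h => by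
    simp only [D.enc, List.cons_append, List.append_assoc, List.cons.injEq, true_and] at h
    obtain ⟨h1, h2⟩ := D.enc_append_inj h
    obtain ⟨h3, h4⟩ := D.enc_append_inj h2
    exact ⟨by rw [h1, h3], h4⟩

theorem D.enc_injective : Function.Injective D.enc := fun a b h =>
  (D.enc_append_inj (u := []) (v := []) (by simpa using h)).1

/-- Types with an injective representation. -/
class ToDInj (α : Type) [ToD α] : Prop where
  inj : Function.Injective (toD : α → D)

theorem en_inj {α : Type} [ToD α] [ToDInj α] {a b : α} : en a = en b ↔ a = b :=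
  ⟨fun h => ToDInj.inj (D.enc_injective h), fun h => by rw [h]⟩

instance : ToDInj D := ⟨fun _ _ h => h⟩
instance : ToDInj Bool := ⟨fun a b h => by cases a <;> cases b <;> first | rfl | cases h⟩
instance : ToDInj Unit := ⟨fun _ _ _ => rfl⟩
instance : ToDInj ℕ := ⟨fun a b => by
  induction a generalizing b with
  | zero => cases b with
    | zero => intro _; rfl
    | succ b => intro h; rw [toD_succ, toD_zero] at h; cases h
  | succ a ih => cases b with
    | zero => intro h; rw [toD_succ, toD_zero] at h; cases h
    | succ b => intro h; rw [toD_succ, toD_succ] at h; rw [ih b (D.cons.inj h).2]⟩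
instance {α β : Type} [ToD α] [ToD β] [ToDInj α] [ToDInj β] : ToDInj (α × β) :=
  ⟨fun a b h => by
    rw [toD_pair, toD_pair] at h
    exact Prod.ext (ToDInj.inj (D.cons.inj h).1) (ToDInj.inj (D.cons.inj h).2)⟩
instance {α : Type} [ToD α] [ToDInj α] : ToDInj (List α) := ⟨fun a b => by
  induction a generalizing b with
  | nil => cases b with
    | nil => intro _; rfl
    | cons y b => intro h; rw [toD_nil, toD_cons] at h; cases h
  | cons x a ih => cases b with
    | nil => intro h; rw [toD_nil, toD_cons] at h; cases h
    | cons y b =>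
      intro h
      rw [toD_cons, toD_cons] at h
      rw [ih b (D.cons.inj h).2, ToDInj.inj (D.cons.inj h).1]⟩
instance {α : Type} [ToD α] [ToDInj α] (p : α → Prop) : ToDInj {x : α // p x} :=
  ⟨fun _ _ h => Subtype.ext (ToDInj.inj h)⟩

section

variable {α β γ δ : Type} [ToD α] [ToD β] [ToD γ] [ToD δ]

/-- the code as a typed list of bits -/
theorem PF.enc {f : γ → α} (hf : PF f) : PF (fun c => (en (f c) : List Bool)) := by
  have h1 : Poly (id : List Bool → List Bool) en (fun w : List Bool => w) :=
    (Poly.toTree D.ofBool).restrict id (fun _ => rfl) (fun _ => rfl)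
  have h2 : PF (fun a : α => (en a : List Bool)) :=
    h1.restrict (fun a : α => en a) (fun _ => rfl) (fun _ => rfl)
  exact h2.comp hf

theorem eqB_fold (l l' : List Bool) (ok : Bool) :
    l.foldl (fun (s : Bool × List Bool) a => (s.1 && (!s.2.isEmpty && (s.2.headD false == a)),
      s.2.tail)) (ok, l') =
      (ok && decide (l <+: l'), l'.drop l.length) := by
  induction l generalizing l' ok with
  | nil => simp
  | cons a l ih =>
    rw [List.foldl_cons, ih]
    cases l' with
    | nil => simp
    | cons b l' =>
      refine Prod.ext ?_ (by simp)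
      simp only [List.isEmpty_cons, Bool.not_false, List.headD_cons, Bool.true_and,
        List.tail_cons]
      rw [Bool.eq_iff_iff]
      simp only [Bool.and_eq_true, beq_iff_eq, decide_eq_true_eq, List.cons_prefix_cons]
      constructor
      · rintro ⟨⟨h1, h2⟩, h3⟩
        exact ⟨h1, h2.symm, by simpa using h3⟩
      · rintro ⟨h1, h2, h3⟩
        exact ⟨⟨h1, h2.symm⟩, by simpa using h3⟩

theorem PF.headD {l : γ → List α} {d : γ → α} (hl : PF l) (hd : PF d) :
    PF (fun c => (l c).headD (d c)) := by
  refine PF.listCases (g := l) (h1 := d) (h2 := fun x => x.2.1) hl hd PF.id'.snd.fst ?_ ?_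
  · intro c h; rw [h]; rfl
  · intro c a r h; rw [h]; rfl

theorem PF.eqListBool {f g : γ → List Bool} (hf : PF f) (hg : PF g) :
    PF (fun c => decide (f c = g c)) := by
  obtain ⟨P, hP⟩ := hg.bound
  have h : PF (fun c => (f c).foldl (fun (s : Bool × List Bool) a =>
      (s.1 && (!s.2.isEmpty && (s.2.headD false == a)), s.2.tail)) (true, g c)) := by
    refine PF.foldl' (f := fun _ (s : Bool × List Bool) a =>
      (s.1 && (!s.2.isEmpty && (s.2.headD false == a)), s.2.tail)) ?_
      ((PF.const true).pair hg) hf (P + 4) ?_
    · exact PF.pair (PF.id'.fst.snd.fst.and (PF.id'.fst.snd.snd.isCons.and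
        ((PF.id'.fst.snd.snd.headD (PF.const false)).boolEq PF.id'.snd))) PF.id'.fst.snd.snd.tail
    · intro c l' _
      rw [eqB_fold, sz_pair]
      have h1 := sz_bool (true && decide (l' <+: g c))
      have h2 := sz_drop (g c) l'.length
      have h3 := hP c
      rw [Polynomial.eval_add, Polynomial.eval_ofNat]
      omega
  refine (h.fst.and (h.snd.isCons.not)).cast (fun c => ?_)
  rw [eqB_fold]
  congr 1
  rw [Bool.true_and, Bool.not_not, ← Bool.decide_coe ((List.drop _ _).isEmpty),
    ← Bool.decide_and]
  apply decide_eq_decide.2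
  constructor
  · intro h
    rw [h]
    simp
  · rintro ⟨⟨t, ht⟩, h2⟩
    rw [List.isEmpty_iff, List.drop_eq_nil_iff, ← ht, List.length_append] at h2
    have : t = [] := List.length_eq_zero_iff.1 (by omega)
    rw [← ht, this, List.append_nil]

/-- **Equality** of typed values. -/
theorem PF.eq [ToDInj α] [DecidableEq α] {f g : γ → α} (hf : PF f) (hg : PF g) :
    PF (fun c => decide (f c = g c)) :=
  (hf.enc.eqListBool hg.enc).cast (fun c => by
    congr 1
    exact decide_eq_decide.2 en_inj.symm)

theorem PF.beq [ToDInj α] [DecidableEq α] {f g : γ → α} (hf : PF f) (hg : PF g) :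
    PF (fun c => (f c == g c)) := (hf.eq hg).cast (fun _ => rfl)

/-! ### lists -/

theorem PF.drop {n : γ → ℕ} {l : γ → List α} (hn : PF n) (hl : PF l) :
    PF (fun c => (l c).drop (n c)) := by
  obtain ⟨P, hP⟩ := hl.bound
  have key : ∀ (i : ℕ) (l : List α), (fun x : List α => x.tail)^[i] l = l.drop i := by
    intro i
    induction i with
    | zero => intro l; rfl
    | succ i ih => intro l; rw [iterate_succ_apply, ih]; cases l <;> simp
  have h : PF (fun c => (fun x : List α => x.tail)^[n c] (l c)) := by
    refine PF.iter (f := fun _ (x : List α) => x.tail) PF.id'.snd.tail hl hn P ?_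
    intro c i _
    rw [key]
    exact (sz_drop _ _).trans (hP c)
  exact h.cast (fun c => by rw [key])

theorem PF.take {n : γ → ℕ} {l : γ → List α} (hn : PF n) (hl : PF l) :
    PF (fun c => (l c).take (n c)) := by
  refine (PF.reverse (PF.drop (hl.length.sub hn) hl.reverse)).cast (fun c => ?_)
  congr 1
  rw [List.drop_reverse, List.reverse_reverse]
  by_cases h1 : n c ≤ (l c).length
  · rw [show (l c).length - ((l c).length - n c) = n c by omega]
  · rw [List.take_of_length_le (by omega), List.take_of_length_le (by omega)]

theorem PF.getD {n : γ → ℕ} {l : γ → List α} {d : γ → α} (hl : PF l) (hn : PF n) (hd : PF d) :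
    PF (fun c => (l c).getD (n c) (d c)) := by
  refine ((PF.drop hn hl).headD hd).cast (fun c => ?_)
  congr 1
  generalize l c = l
  generalize n c = n
  induction l generalizing n with
  | nil => simp
  | cons a l ih => cases n with
    | zero => simp
    | succ n => simpa using ih n

theorem PF.isEmpty {l : γ → List α} (hl : PF l) : PF (fun c => (l c).isEmpty) :=
  hl.isCons.not.cast (fun c => by simp)

theorem PF.countP {g : γ → α → Bool} {l : γ → List α} (hg : PF (fun x : γ × α => g x.1 x.2))
    (hl : PF l) : PF (fun c => (l c).countP (g c)) :=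
  (PF.filter hg hl).length.cast (fun c => by rw [List.countP_eq_length_filter])

theorem PF.count [ToDInj α] [DecidableEq α] {a : γ → α} {l : γ → List α} (ha : PF a)
    (hl : PF l) : PF (fun c => (l c).count (a c)) := by
  have h : PF (fun c => (l c).countP (fun x => x == a c)) :=
    PF.countP (g := fun c x => x == a c) (PF.id'.snd.beq (ha.comp PF.id'.fst)) hl
  exact h.cast (fun _ => rfl)

theorem PF.contains [ToDInj α] [DecidableEq α] {a : γ → α} {l : γ → List α} (ha : PF a)
    (hl : PF l) : PF (fun c => decide (a c ∈ l c)) := by
  have h : PF (fun c => (l c).any (fun x => a c == x)) :=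
    PF.any (g := fun c x => a c == x) ((ha.comp PF.id'.fst).beq PF.id'.snd) hl
  refine h.cast (fun c => ?_)
  congr 1
  rw [Bool.eq_iff_iff]
  simp

theorem PF.findD {g : γ → α → Bool} {l : γ → List α} {d : γ → α}
    (hg : PF (fun x : γ × α => g x.1 x.2)) (hl : PF l) (hd : PF d) :
    PF (fun c => ((l c).find? (g c)).getD (d c)) := by
  refine ((PF.filter hg hl).headD hd).cast (fun c => ?_)
  congr 1
  induction l c with
  | nil => simp
  | cons a l ih =>
    rw [List.find?_cons, List.filter_cons]
    cases h : g c a with
    | true => simp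
    | false => simpa using ih

theorem PF.sum {l : γ → List ℕ} (hl : PF l) : PF (fun c => (l c).sum) := by
  obtain ⟨P, hP⟩ := hl.bound
  have key : ∀ (l : List ℕ) (s : ℕ), l.foldl (fun s a => s + a) s = s + l.sum := by
    intro l
    induction l with
    | nil => intro s; simp
    | cons a l ih => intro s; rw [List.foldl_cons, ih, List.sum_cons]; omega
  have hs : ∀ l : List ℕ, 2 * l.sum + 1 ≤ sz l := by
    intro l
    induction l with
    | nil => simp
    | cons a l ih => rw [List.sum_cons, sz_cons, sz_nat]; omega
  have h : PF (fun c => (l c).foldl (fun s a => s + a) 0) := by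
    refine PF.foldl' (f := fun _ s a => s + a) (PF.id'.fst.snd.add PF.id'.snd) (PF.const 0)
      hl P ?_
    intro c l' hl'
    rw [key, sz_nat, Nat.zero_add]
    exact (hs l').trans ((sz_prefix hl').trans (hP c))
  exact h.cast (fun c => by rw [key, Nat.zero_add])

theorem zip_fold (l : List α) (l' : List β) (acc : List (α × β)) (d : β) :
    (l.foldl (fun (s : List β × List (α × β)) a =>
      (s.1.tail, if !s.1.isEmpty then (a, s.1.headD d) :: s.2 else s.2)) (l', acc)) =
      (l'.drop l.length, (l.zip l').reverse ++ acc) := by
  induction l generalizing l' acc with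
  | nil => simp
  | cons a l ih =>
    rw [List.foldl_cons, ih]
    cases l' with
    | nil => simp
    | cons b l' => simp

theorem sz_zip (l : List α) (l' : List β) : sz (l.zip l') ≤ sz l + sz l' := by
  induction l generalizing l' with
  | nil => simp
  | cons a l ih => cases l' with
    | nil => simp
    | cons b l' =>
      rw [List.zip_cons_cons, sz_cons, sz_cons, sz_cons, sz_pair]
      have := ih l'
      omega

theorem PF.zip {f : γ → List α} {g : γ → List β} [Inhabited β] (hf : PF f) (hg : PF g) :
    PF (fun c => (f c).zip (g c)) := by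
  obtain ⟨P, hP⟩ := hf.bound
  obtain ⟨Q, hQ⟩ := hg.bound
  have h : PF (fun c => (f c).foldl (fun (s : List β × List (α × β)) a =>
      (s.1.tail, if !s.1.isEmpty then (a, s.1.headD default) :: s.2 else s.2)) (g c, [])) := by
    refine PF.foldl' (f := fun _ (s : List β × List (α × β)) a =>
      (s.1.tail, if !s.1.isEmpty then (a, s.1.headD default) :: s.2 else s.2)) ?_
      (hg.pair (PF.const [])) hf (P + Q + Q + 2) ?_
    · exact PF.pair PF.id'.fst.snd.fst.tail (PF.ite PF.id'.fst.snd.fst.isCons
        ((PF.id'.snd.pair (PF.id'.fst.snd.fst.headD (PF.const default))).cons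
          PF.id'.fst.snd.snd) PF.id'.fst.snd.snd)
    · intro c l' hl'
      rw [zip_fold, List.append_nil, sz_pair, sz_reverse]
      have h1 := sz_drop (g c) l'.length
      have h2 := sz_zip l' (g c)
      have h3 := sz_prefix hl'
      have h4 := hP c
      have h5 := hQ c
      simp only [Polynomial.eval_add, Polynomial.eval_ofNat]
      omega
  exact h.snd.reverse.cast (fun c => by rw [zip_fold]; simp)

end

end Pool.Agent.PolyTime
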